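import Pool.Agent.H.MP_8a4945_al.C

namespace Pool.Agent.H.MP_8a4945_al

variable {S : Type} {R : Set (Rl S)} {G T : Type} [Group G] [MulAction G T] {X : Sys R G T} {o : T} {N : T → List (Tm S)}

abbrev Dt (S : Type) := List S × Rl S × Bool × List S

inductive Der (R : Set (Rl S)) : List S → List (Dt S) → List S → Prop
  | nil (u) : Der R u [] u
  | cons {a r d b D v} : r ∈ R → Der R (a ++ src r (!d) ++ b) D v → Der R (a ++ src r d ++ b) ((a, r, d, b) :: D) v

def ctx (x : List S) (D : List (Dt S)) (y : List S) : List (Dt S) := D.map fun e => (x ++ e.1, e.2.1, e.2.2.1, e.2.2.2 ++ y)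

theorem Der.app {u v z : List S} {D D'} (h : Der R u D v) (k : Der R v D' z) : Der R u (D ++ D') z := by
  induction h with
  | nil => exact k
  | cons i _ ih => exact .cons i (ih k)

theorem Der.symm {u v : List S} {D} (h : Der R u D v) : ∃ D', Der R v D' u := by
  induction h with
  | nil => exact ⟨_, .nil _⟩
  | @cons a r d b D v i _ ih =>
    obtain ⟨D', k⟩ := ih
    exact ⟨_, k.app (.cons i (by rw [Bool.not_not]; exact .nil _))⟩

theorem Der.ctx {u v : List S} {D} (h : Der R u D v) (x y : List S) : Der R (x ++ u ++ y) (ctx x D y) (x ++ v ++ y) := by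
  induction h with
  | nil => exact .nil _
  | @cons a r d b D v i _ ih =>
    have := Der.cons (a := x ++ a) (b := b ++ y) (d := d) (D := MP_8a4945_al.ctx x D y) (v := x ++ v ++ y) i (by simpa using ih)
    simpa [MP_8a4945_al.ctx] using this

def eqv (R : Set (Rl S)) : Setoid (List S) :=
  ⟨fun u v => ∃ D, Der R u D v, fun u => ⟨_, .nil u⟩, fun ⟨_, h⟩ => h.symm, fun ⟨_, h⟩ ⟨_, k⟩ => ⟨_, h.app k⟩⟩

noncomputable def nf (R : Set (Rl S)) (u : List S) : List S := (Quotient.mk (eqv R) u).out

theorem nf_ex (u : List S) : ∃ D, Der R u D (nf R u) := (eqv R).symm (Quotient.mk_out (s := eqv R) u)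

theorem Der.nf {u v : List S} {D} (h : Der R u D v) : nf R u = nf R v := congrArg Quotient.out (Quotient.sound ⟨D, h⟩)

noncomputable def dv (R : Set (Rl S)) (u : List S) : List (Dt S) := (nf_ex (R := R) u).choose

theorem dv_spec (u : List S) : Der R u (dv R u) (nf R u) := (nf_ex u).choose_spec

theorem nf_ctx (x u y : List S) : nf R (x ++ nf R u ++ y) = nf R (x ++ u ++ y) := ((dv_spec u).ctx x y).nf.symm

theorem nf_l (u y : List S) : nf R (nf R u ++ y) = nf R (u ++ y) := by simpa using nf_ctx [] u y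

theorem nf_r (x u : List S) : nf R (x ++ nf R u) = nf R (x ++ u) := by simpa using nf_ctx x u []

theorem nf_step {r : Rl S} (h : r ∈ R) (a b : List S) (d : Bool) : nf R (a ++ src r d ++ b) = nf R (a ++ src r (!d) ++ b) :=
  (Der.cons h (.nil _)).nf

theorem Sys.nf_nil (X : Sys R G T) : nf R ([] : List S) = [] := by
  have := dv_spec (R := R) []
  generalize dv R [] = D, nf R [] = v at this
  generalize e : ([] : List S) = u at this
  cases this with
  | nil => rfl
  | cons i => simp [X.ne _ i] at e

noncomputable def run (D : List (Dt S)) (W : List (Tm S)) : List (Tm S) := D.foldl (fun W e => W.take e.1.length ++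
  stepf e.2.1 e.2.2.1 ((W.drop e.1.length).take (src e.2.1 e.2.2.1).length) ++ (W.drop e.1.length).drop (src e.2.1 e.2.2.1).length) W

inductive Sys.Run (X : Sys R G T) : T → List (Dt S) → T → Prop
  | nil (t) : Run X t [] t
  | cons {t t1 t2 a r d b D} : X.St t t1 a r d b → Run X t1 D t2 → Run X t ((a, r, d, b) :: D) t2

theorem Sys.Run.app {t t1 t2 D D'} (h : X.Run t D t1) (k : X.Run t1 D' t2) : X.Run t (D ++ D') t2 := by
  induction h with
  | nil => exact k
  | cons i _ ih => exact .cons i (ih k)

theorem Sys.Run.act (g : G) {t t1 D} (h : X.Run t D t1) : X.Run (g • t) D (g • t1) := by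
  induction h with
  | nil => exact .nil _
  | cons i _ ih => exact .cons (X.sact g i) ih

theorem Sys.Run.fn {t t1 t2 D} (h : X.Run t D t1) (k : X.Run t D t2) : t1 = t2 := by
  induction h with
  | nil => cases k; rfl
  | cons i _ ih =>
    cases k with
    | cons j k => exact ih (X.fn i j ▸ k)

noncomputable def Rf (R : Set (Rl S)) : List (Tm S) → List S → List (Tm S)
  | z :: V, x :: v => run (dv R (x :: nf R v)) (z :: Rf R V v)
  | _, _ => []

noncomputable def Lf (R : Set (Rl S)) : List (Tm S) → List S → List (Tm S)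
  | z :: V, x :: v => run (dv R (nf R v.reverse ++ [x])) (Lf R V v ++ [z])
  | _, _ => []

noncomputable def RD (R : Set (Rl S)) : List S → List S → List S → List (Dt S)
  | _, [], _ => []
  | x0, x :: v, y => RD R (x0 ++ [x]) v y ++ ctx x0 (dv R (x :: nf R (v ++ y))) []

theorem RD_nf (x0 v y : List S) : RD R x0 v (nf R y) = RD R x0 v y := by
  induction v generalizing x0 with
  | nil => rfl
  | cons x v ih => simp only [RD, ih, nf_r]

namespace Sys.Chart
variable (hN : X.Chart o N)
include hN

theorem real {u v D} (h : Der R u D v) {t x y A W B} (e : X.word t = x ++ u ++ y) (n : N t = A ++ W ++ B) (l : A.length = x.length)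
    (l' : W.length = u.length) : ∃ t', X.Run t (ctx x D y) t' ∧ X.word t' = x ++ v ++ y ∧ N t' = A ++ run D W ++ B := by
  induction h generalizing t W with
  | nil => exact ⟨t, .nil _, e, n⟩
  | @cons a r d b D v i _ ih =>
    obtain ⟨t1, s⟩ := X.ex (t := t) (a := x ++ a) (d := d) (b := b ++ y) i (by simp [e])
    simp only [List.length_append] at l'
    have n1 := hN.step (A := A ++ W.take a.length) (s := (W.drop a.length).take (src r d).length)
      (B := (W.drop a.length).drop (src r d).length ++ B) s (by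
        simp only [n, List.append_assoc]
        rw [← List.append_assoc (List.take _ (List.drop ..)), List.take_append_drop, ← List.append_assoc (List.take ..), List.take_append_drop])
      (by simp [l]; omega) (by simp; omega)
    have l1 := hN.len t1
    have l2 := hN.len t
    rw [n1, X.wd' s] at l1
    rw [n, e] at l2
    obtain ⟨t', p, q⟩ := ih (t := t1) (W := W.take a.length ++ stepf r d ((W.drop a.length).take (src r d).length) ++
      (W.drop a.length).drop (src r d).length) (by simp [X.wd' s]) (by simp [n1]) (by simp at l1 l2 ⊢; omega)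
    exact ⟨t', .cons s p, q⟩

theorem rc {v y : List S} {Y V} (l : V.length = v.length) {s x0 A} (e : X.word s = x0 ++ v ++ nf R y) (n : N s = A ++ V ++ Rf R Y y)
    (l' : A.length = x0.length) : ∃ s', X.Run s (RD R x0 v y) s' ∧ X.word s' = x0 ++ nf R (v ++ y) ∧ N s' = A ++ Rf R (V ++ Y) (v ++ y) := by
  induction v generalizing V x0 A with
  | nil =>
    obtain rfl : V = [] := by simpa using l
    exact ⟨s, .nil _, by simpa using e, by simpa using n⟩
  | cons x v ih =>
    obtain ⟨z, V, rfl⟩ := List.exists_cons_of_length_eq_add_one l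
    obtain ⟨s1, p1, p2, p3⟩ := ih (V := V) (x0 := x0 ++ [x]) (A := A ++ [z]) (by simpa using l) (by simpa using e) (by simpa using n) (by simp [l'])
    have l1 := hN.len s1
    rw [p2, p3] at l1
    obtain ⟨s2, q1, q2, q3⟩ := hN.real (dv_spec (x :: nf R (v ++ y))) (t := s1) (x := x0) (y := []) (A := A) (W := z :: Rf R (V ++ Y) (v ++ y))
      (B := []) (by simp [p2]) (by simp [p3]) l' (by simp at l1 ⊢; omega)
    exact ⟨s2, p1.app q1, by simpa [q2] using nf_r [x] (v ++ y), by simpa [Rf] using q3⟩

theorem lc {v : List S} {V} (l : V.length = v.length) {s y B} (e : X.word s = v.reverse ++ y) (n : N s = V.reverse ++ B) :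
    ∃ s', X.word s' = nf R v.reverse ++ y ∧ N s' = Lf R V v ++ B := by
  induction v generalizing V y B with
  | nil =>
    obtain rfl : V = [] := by simpa using l
    exact ⟨s, by simpa [X.nf_nil] using e, by simpa [Lf] using n⟩
  | cons x v ih =>
    obtain ⟨z, V, rfl⟩ := List.exists_cons_of_length_eq_add_one l
    obtain ⟨s1, p2, p3⟩ := ih (V := V) (y := x :: y) (B := z :: B) (by simpa using l) (by simpa using e) (by simpa using n)
    have l1 := hN.len s1
    have l2 := hN.len s
    rw [p2, p3] at l1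
    rw [e, n] at l2
    obtain ⟨s2, -, q2, q3⟩ := hN.real (dv_spec (nf R v.reverse ++ [x])) (t := s1) (x := []) (y := y) (A := []) (W := Lf R V v ++ [z])
      (B := B) (by simp [p2]) (by simp [p3]) rfl (by simp at l l1 l2 ⊢; omega)
    exact ⟨s2, by simpa [nf_l] using q2, by simpa [Lf] using q3⟩

end Sys.Chart

/-- the vertex obtained from `t` by collapsing the outer parts -/
def Sys.Md (X : Sys R G T) (N : T → List (Tm S)) (t : T) (u v y : List S) (m : T) : Prop := ∃ U V Y, X.word t = u ++ v ++ y ∧ N t = U ++ V ++ Y ∧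
  U.length = u.length ∧ V.length = v.length ∧ (Lf R U.reverse u.reverse).length = (nf R u).length ∧ X.word m = nf R u ++ v ++ nf R y ∧ N m = Lf R U.reverse u.reverse ++ V ++ Rf R Y y

namespace Sys.Chart
variable (hN : X.Chart o N)
include hN

theorem md_ex {t u v y} (e : X.word t = u ++ v ++ y) : ∃ m, X.Md N t u v y m := by
  have l := hN.len t
  rw [e] at l
  simp only [List.length_append] at l
  obtain ⟨U, V, Y, n, l1, l2⟩ : ∃ U V Y, N t = U ++ V ++ Y ∧ U.length = u.length ∧ V.length = v.length :=
    ⟨(N t).take u.length, ((N t).drop u.length).take v.length, ((N t).drop u.length).drop v.length, by simp [-List.drop_drop],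
      by simp; omega, by simp; omega⟩
  obtain ⟨s, p1, p2⟩ := hN.lc (v := u.reverse) (V := U.reverse) (by simp [l1]) (s := t) (y := v ++ y) (B := V ++ Y) (by simp [e]) (by simp [n])
  have l3 := hN.len s
  rw [p1, p2] at l3
  rw [n] at l
  obtain ⟨m, -, q1, q2⟩ := hN.rc (v := y) (y := []) (Y := []) (V := Y) (by simp at l; omega) (s := s) (x0 := nf R u ++ v)
    (A := Lf R U.reverse u.reverse ++ V) (by simp [p1, X.nf_nil]) (by simp [p2, Rf]) (by simp at l l3 ⊢; omega)
  exact ⟨m, U, V, Y, e, n, l1, l2, by simp at l l3; omega, by simpa using q1, by simpa using q2⟩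

theorem md_uq {t u v y m m'} (h : X.Md N t u v y m) (k : X.Md N t u v y m') : m = m' := by
  obtain ⟨U, V, Y, -, a, b, c, -, -, d⟩ := h
  obtain ⟨U', V', Y', -, a', b', c', -, -, d'⟩ := k
  obtain ⟨e, rfl⟩ := List.append_inj (a.symm.trans a') (by simp [*])
  obtain ⟨rfl, rfl⟩ := List.append_inj e (by simp [*])
  exact hN.injN (d.trans d'.symm)

theorem md_r {t u v y m s} (h : X.Md N t u v y m) (k : X.Md N t u [] (v ++ y) s) : X.Run m (RD R (nf R u) v (nf R y)) s := by
  obtain ⟨U, V, Y, a, b, c, d, l, e, f⟩ := h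
  obtain ⟨s', p, q, r⟩ := hN.rc d e f l
  rw [RD_nf, hN.md_uq k (m' := s') ⟨U, [], V ++ Y, by simp [a], by simp [b], c, rfl, l, by simp [q], by simp [r]⟩]
  exact p

theorem md_l {t u x y m s} (h : X.Md N t u [x] y m) (k : X.Md N t (u ++ [x]) [] y s) :
    X.Run m (ctx [] (dv R (nf R u ++ [x])) (nf R y)) s := by
  obtain ⟨U, V, Y, a, b, c, d, l, e, f⟩ := h
  obtain ⟨z, rfl⟩ := List.length_eq_one_iff.1 d
  obtain ⟨s', p, q, r⟩ := hN.real (dv_spec (nf R u ++ [x])) (x := []) (y := nf R y) (A := []) (W := Lf R U.reverse u.reverse ++ [z]) (B := Rf R Y y)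
    (t := m) (by simp [e]) (by simp [f]) rfl (by simp [l])
  have l1 := hN.len m
  have l2 := hN.len s'
  rw [e, f] at l1
  rw [q, r, nf_l] at l2
  rw [hN.md_uq k (m' := s') ⟨U ++ [z], [], Y, by simp [a], by simp [b], by simp [c], rfl, by simp [Lf] at l1 l2 ⊢; omega,
    by simp [q, nf_l], by simp [r, Lf]⟩]
  exact p

theorem md_s {t t' a r d b m m'} (s : X.St t t' a r d b) (h : X.Md N t a (src r d) b m) (k : X.Md N t' a (src r (!d)) b m') :
    X.St m m' (nf R a) r d (nf R b) := by
  obtain ⟨U, V, Y, p, q, c, e, l, f, g⟩ := h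
  obtain ⟨m1, s1⟩ := X.ex (X.wd s).1 f
  have n := hN.step s q c e
  have l3 := hN.len t'
  have l4 := hN.len t
  rw [n, X.wd' s] at l3
  rw [p, q] at l4
  rw [hN.md_uq k (m' := m1) ⟨U, _, Y, X.wd' s, n, c, by simp at l3 l4; omega, l, X.wd' s1, hN.step s1 g l e⟩]
  exact s1

end Sys.Chart

end Pool.Agent.H.MP_8a4945_al
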