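import Pool.Agent.H.MP_5cc51b_al.A

namespace Pool.Agent.H.MP_8a4945_al

variable {S : Type} {R : Set (Rl S)} {G T : Type} [Group G] [MulAction G T] {X : Sys R G T} {o : T} {N : T → List (Tm S)}

theorem fin_bd {α : Type} {A : Set α} (h : A.Finite) (P : α → ℕ → Prop) (k : ∀ a, ∃ n, ∀ m, n ≤ m → P a m) :
    ∃ n, ∀ a ∈ A, ∀ m, n ≤ m → P a m := by
  choose f k using k
  exact ⟨h.toFinset.sup f, fun a i m j => k a m ((Finset.le_sup (h.mem_toFinset.2 i)).trans j)⟩

noncomputable def ty (R : Set (Rl S)) (x : List S) (i : ℕ) : List S × Option S × List S := (nf R (x.take i), x[i]?, nf R (x.drop (i + 1)))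

namespace Sys

theorem ty_eq {t i u j} (k : X.q false t i = X.q false u j) : ty R (X.word t) i = ty R (X.word u) j := by
  refine q_ind (fun u j => _ = ty R (X.word u) j) (fun u j u' j' ⟨a, r, d, b, l, m⟩ n => n.trans ?_) k rfl
  have i := (X.wd l).1
  simp only at l m
  rw [(X.wd l).2, X.wd' l]
  rcases m with ⟨m, rfl⟩ | ⟨k, rfl, rfl⟩
  · simp only [Bool.toNat_false, add_zero] at m
    simp only [ty, List.append_assoc]
    rw [List.take_append_of_le_length m.le, List.take_append_of_le_length m.le, List.getElem?_append_left m, List.getElem?_append_left m,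
      List.drop_append_of_le_length m, List.drop_append_of_le_length m, ← List.append_assoc, ← List.append_assoc, nf_step i]
  · simp only [ty, ← List.length_append, add_assoc _ k, List.take_length_add_append, List.drop_length_add_append, nf_step i a _ d]
    rw [List.getElem?_append_right (by omega), List.getElem?_append_right (by omega)]
    simp

theorem ex_phi (X : Sys R G T) : ∃ φ : T → G, ∀ (g : G) t, φ (g • t) = g * φ t := by
  let τ : T → T := fun t => Classical.epsilon (h := ⟨t⟩) fun s => X.word s = X.word t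
  choose φ h using fun t => X.tr (τ t) t (Classical.epsilon_spec (p := fun s => X.word s = X.word t) ⟨t, rfl⟩)
  refine ⟨φ, fun g t => (inv_mul_eq_one.1 (X.free _ (τ t) ?_)).symm⟩
  have : τ (g • t) = τ t := by simp only [τ, X.wact]
  rw [mul_smul, ← this, h, inv_smul_eq_iff, mul_smul, this, h]

theorem cost {φ : T → G} (hφ : ∀ (g : G) t, φ (g • t) = g * φ t) {ℓ : G → ℕ} (hℓ : ∀ g h, ℓ (g * h) ≤ ℓ g + ℓ h) (x : List S)
    (D D' : List (Dt S)) : ∃ n, ∀ k, n ≤ k → ∀ m s s', X.word m = x → X.Run m D s → X.Run m D' s' →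
      ℓ (φ s) ≤ ℓ (φ s') + k ∧ ℓ (φ s') ≤ ℓ (φ s) + k := by
  by_cases h : ∃ m s s', X.word m = x ∧ X.Run m D s ∧ X.Run m D' s'
  · obtain ⟨m0, s0, s0', a, b, c⟩ := h
    refine ⟨ℓ ((φ s0')⁻¹ * φ s0) + ℓ ((φ s0)⁻¹ * φ s0'), fun k j m s s' a' b' c' => ?_⟩
    obtain ⟨g, rfl⟩ := X.tr m0 m (a.trans a'.symm)
    obtain rfl := (b.act g).fn b'
    obtain rfl := (c.act g).fn c'
    have p := hℓ (g * φ s0') ((φ s0')⁻¹ * φ s0)
    have q := hℓ (g * φ s0) ((φ s0)⁻¹ * φ s0')
    simp only [hφ, mul_assoc, mul_inv_cancel_left] at *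
    omega
  · exact ⟨0, fun _ _ m s s' a b c => (h ⟨m, s, s', a, b, c⟩).elim⟩

def Cn (X : Sys R G T) (E : Set (Dt S)) : T → T → Prop :=
  Relation.ReflTransGen fun t t' => ∃ a r d b, X.St t t' a r d b ∧ (a, r, d, b) ∈ E ∧ (a, r, !d, b) ∈ E

theorem ex_E (X : Sys R G T) (o : T) {𝒮 : Set G} (h : 𝒮.Finite) (k : Subgroup.closure 𝒮 = ⊤) :
    ∃ E : Set (Dt S), E.Finite ∧ ∀ g : G, X.Cn E o (g • o) := by
  have mono : ∀ {E E' t u}, E ⊆ E' → X.Cn E t u → X.Cn E' t u := fun i m => by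
    induction m with
    | refl => exact .refl
    | tail _ s ih => obtain ⟨a, r, d, b, j, k, l⟩ := s; exact ih.tail ⟨a, r, d, b, j, i k, i l⟩
  choose f h1 h2 using X.con o (fun t => ∃ E : Set (Dt S), E.Finite ∧ X.Cn E o t) ⟨∅, Set.finite_empty, .refl⟩
    fun t t' a r d b i ⟨E, j, l⟩ => ⟨insert (a, r, d, b) (insert (a, r, !d, b) E), (j.insert _).insert _,
      (mono (fun _ m => .inr (.inr m)) l).tail ⟨a, r, d, b, i, by simp, by simp⟩⟩
  have act : ∀ {E} (g : G) {t u}, X.Cn E t u → X.Cn E (g • t) (g • u) := fun g _ _ m => by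
    induction m with
    | refl => exact .refl
    | tail _ s ih => obtain ⟨a, r, d, b, j, l⟩ := s; exact ih.tail ⟨a, r, d, b, X.sact g j, l⟩
  refine ⟨⋃ s ∈ 𝒮, f (s • o), h.biUnion fun _ _ => h1 _, fun g => ?_⟩
  have : g ∈ Subgroup.closure 𝒮 := k ▸ Subgroup.mem_top g
  induction this using Subgroup.closure_induction with
  | mem s i => exact mono (Set.subset_biUnion_of_mem (u := fun s => f (s • o)) i) (h2 _)
  | one => simpa using .refl
  | mul g g' _ _ a b => exact mul_smul g g' o ▸ a.trans (act g b)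
  | inv g _ a =>
    have := act g⁻¹ a
    rw [inv_smul_smul] at this
    generalize g⁻¹ • o = u, ⋃ s ∈ 𝒮, f (s • o) = E at this ⊢
    clear * - this
    induction this with
    | refl => exact .refl
    | tail _ s ih => obtain ⟨a, r, d, b, j, l, m⟩ := s; exact ih.head ⟨a, r, !d, b, X.sym j, m, by simpa using l⟩

namespace Chart
variable (hN : X.Chart o N)
include hN

theorem cov {E t} (h : X.Cn E o t) : ∀ c ∈ cells (N t), ∃ t0 t1 a b A B, X.Up N t0 t1 a c b A B ∧ (a, c.r, c.d, b) ∈ E := by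
  induction h with
  | refl => simp [hN.cells_base]
  | tail _ s ih =>
    obtain ⟨a, r, d, b, s, i, j⟩ := s
    rcases hN.dich s with ⟨L, A, B, v⟩ | ⟨L, A, B, v⟩
    · rw [(hN.up_c v).2]
      rintro c (rfl | k)
      exacts [⟨_, _, a, b, A, B, v, i⟩, ih c k]
    · exact fun c k => ih c ((hN.up_c v).2 ▸ .inr k)

theorem vd (t : T) : ∀ y ∈ N t, y ∈ N o ∨ ∃ c : Ce S, y ∈ c.os := by
  induction hN.fw t with
  | base => exact fun _ => .inl
  | up _ v ih =>
    intro y i
    simp only [v.e2, v.e1, List.mem_append] at i ih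
    rcases i with (i | i) | i
    exacts [ih y (.inl (.inl i)), .inr ⟨_, i⟩, ih y (.inr i)]

theorem av {t c A B} (e : N t = A ++ c.os ++ B) (n : c.os ≠ []) : ∃ t0 a b A' B', X.Up N t0 t a c b A' B' ∧ a.length = A.length := by
  obtain ⟨y, i⟩ := List.exists_mem_of_ne_nil _ n
  obtain ⟨j, -, rfl⟩ := mem_os.1 i
  obtain ⟨t0, a, b, A', B', -, v⟩ := hN.last (hN.fw t) (c := c) (cells_o (j := j) (by simp [e, i]))
    fun c' k y j l => (hN.inv t).i2 c' k y l (by simp [e, j])
  exact ⟨t0, a, b, A', B', v, v.l1.symm.trans (pos_eq (v.e2.symm.trans e) n (v.e2 ▸ (hN.inv t).nd.of_map _))⟩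

theorem up_ty {t0 t a c b A B t0' t' a' b' A' B'} (v : X.Up N t0 t a c b A B) (v' : X.Up N t0' t' a' c b' A' B') :
    nf R a = nf R a' ∧ nf R b = nf R b' := by
  have l : 0 < (src c.r (!c.d)).length := List.length_pos_iff.2 v.n2
  have l0 : c.os.length = _ := outs_len ..
  have k : ∀ j < (src c.r (!c.d)).length, ty R (X.word t) (a.length + j) = ty R (X.word t') (a'.length + j) := fun j i =>
    ty_eq (hN.kk0 (by simp [ln, X.wd' v.st]; omega) (by
      rw [v.e2, v'.e2, ← v.l1, ← v'.l1, List.append_assoc, List.append_assoc, List.getElem?_append_right (by omega),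
        List.getElem?_append_right (l₁ := A') (by omega), List.getElem?_append_left (by omega), List.getElem?_append_left (by omega)]
      simp))
  refine ⟨by simpa [ty, X.wd' v.st, X.wd' v'.st] using congrArg (·.1) (k 0 l), ?_⟩
  have := congrArg (·.2.2) (k ((src c.r (!c.d)).length - 1) (by omega))
  simp only [ty, X.wd' v.st, X.wd' v'.st, add_assoc, Nat.sub_add_cancel l, ← List.length_append, List.drop_left] at this
  exact this

end Chart

theorem upper (X : Sys R G T) (o : T) {𝒮 : Set G} (h : 𝒮.Finite) (k : Subgroup.closure 𝒮 = ⊤) {ℓ : G → ℕ}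
    (hℓ : ∀ g h, ℓ (g * h) ≤ ℓ g + ℓ h) : ∃ K, ∀ g : G, ℓ g ≤ K * (X.di (g • o) o + 1) := by
  classical
  obtain ⟨N, hN⟩ := X.chart o
  obtain ⟨φ, hφ⟩ := X.ex_phi
  obtain ⟨E, E1, E2⟩ := X.ex_E o h k
  choose sg hs using fun t p => hN.md_ex (t := t) (u := (X.word t).take p) (v := []) (y := (X.word t).drop p) (by simp)
  let 𝒳 : Set (List S) := insert (X.word o) ((fun e : Dt S => e.1 ++ src e.2.1 (!e.2.2.1) ++ e.2.2.2) '' E)
  obtain ⟨C1, h1⟩ := fin_bd (A := ⋃ x ∈ 𝒳, ty R x '' Set.Iio x.length) (((E1.image _).insert _).biUnion fun x _ => (Set.finite_Iio _).image _) _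
    fun e => cost (X := X) hφ hℓ (e.1 ++ e.2.1.toList ++ e.2.2) (ctx [] (dv R (e.1 ++ e.2.1.toList)) e.2.2) (RD R e.1 e.2.1.toList e.2.2)
  obtain ⟨C2, h2⟩ := fin_bd E1 _ fun e => cost (X := X) hφ hℓ (nf R e.1 ++ src e.2.1 e.2.2.1 ++ nf R e.2.2.2)
    (RD R (nf R e.1) (src e.2.1 e.2.2.1) (nf R e.2.2.2))
    ((nf R e.1, e.2.1, e.2.2.1, nf R e.2.2.2) :: RD R (nf R e.1) (src e.2.1 (!e.2.2.1)) (nf R e.2.2.2))
  obtain ⟨M, h3⟩ := fin_bd E1 (fun e m => (src e.2.1 e.2.2.1).length ≤ m ∧ (src e.2.1 (!e.2.2.1)).length ≤ m)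
    fun e => ⟨_ + _, fun m i => ⟨le_self_add.trans i, le_add_self.trans i⟩⟩
  obtain ⟨C3, h4⟩ := cost (X := X) hφ hℓ (X.word o) [] (RD R [] (X.word o) [])
  obtain ⟨C, c1, c2⟩ : ∃ C, C1 ≤ C ∧ C2 ≤ C := ⟨C1 + C2, le_self_add, le_add_self⟩
  refine ⟨ℓ (φ o)⁻¹ + C3 + ℓ (φ (sg o (X.ln o))) + C * X.ln o + C * (1 + 3 * M), fun g => ?_⟩
  have cv := hN.cov (E2 g)
  have mv : ∀ t, cells (N t) ⊆ cells (N (g • o)) → ∀ p < X.ln t,
      ℓ (φ (sg t (p + 1))) ≤ ℓ (φ (sg t p)) + C ∧ ℓ (φ (sg t p)) ≤ ℓ (φ (sg t (p + 1))) + C := fun t i p l => by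
    obtain ⟨y, e⟩ := hN.get l
    have m : ty R (X.word t) p ∈ ⋃ x ∈ 𝒳, ty R x '' Set.Iio x.length := by
      rcases hN.vd t y (List.mem_of_getElem? e) with j | ⟨c, j⟩
      · obtain ⟨n, j⟩ := List.getElem?_of_mem j
        have := hN.kk0 l (e.trans j.symm)
        exact Set.mem_biUnion (.inl rfl) ⟨n, hN.val this l, (ty_eq this).symm⟩
      · obtain ⟨n, -, rfl⟩ := mem_os.1 j
        obtain ⟨t0, t1, a, b, A, B, v, w⟩ := cv c (i (cells_o (List.mem_of_getElem? e)))
        obtain ⟨n, j⟩ := List.getElem?_of_mem (show c.o n ∈ N t1 by simp [v.e2, j])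
        have := hN.kk0 l (e.trans j.symm)
        exact Set.mem_biUnion (x := X.word t1) (.inr ⟨_, w, (X.wd' v.st).symm⟩) ⟨n, hN.val this l, (ty_eq this).symm⟩
    obtain ⟨m', q⟩ := hN.md_ex (t := t) (u := (X.word t).take p) (v := [(X.word t)[p]]) (y := (X.word t).drop (p + 1)) (by simp)
    have := h1 _ m C c1 m' (sg t (p + 1)) (sg t p)
    simp only [ty, List.getElem?_eq_getElem l, Option.toList_some] at this
    obtain ⟨_, _, _, -, -, -, -, -, w, -⟩ := id q
    exact this w (hN.md_l q (by simpa using hs t (p + 1))) (hN.md_r q (by simpa using hs t p))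
  have mk : ∀ t, cells (N t) ⊆ cells (N (g • o)) → ∀ p n, p + n ≤ X.ln t →
      ℓ (φ (sg t (p + n))) ≤ ℓ (φ (sg t p)) + C * n ∧ ℓ (φ (sg t p)) ≤ ℓ (φ (sg t (p + n))) + C * n := fun t i p n l => by
    induction n with
    | zero => simp
    | succ n ih =>
      have := ih (by omega)
      have := mv t i (p + n) (by omega)
      rw [← add_assoc, mul_add_one]
      omega
  have main : ∀ n t, (cells (N t)).ncard = n → cells (N t) ⊆ cells (N (g • o)) → ∀ p q, p + q = X.ln t →
      (∀ t0 a c b A B, X.Up N t0 t a c b A B → p < a.length + (src c.r (!c.d)).length) →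
      ℓ (φ (sg t p)) ≤ ℓ (φ (sg o (X.ln o))) + C * q + C * (1 + 3 * M) * n := fun n => by
    induction n with
    | zero =>
      intro t e i p q l _
      obtain rfl : t = o := hN.inj (by rw [hN.cells_base, (Set.ncard_eq_zero (hN.inv t).fin).1 e])
      simpa [l] using (mk t i p q l.le).2
    | succ n ih =>
      intro t e i p q l j
      have ex : ∃ m, ∃ t0 a c b A B, X.Up N t0 t a c b A B ∧ a.length = m := by
        obtain ⟨c, -, t0, a, b, A, B, v⟩ := hN.rm (fun _ => True) (t := t) (by simp) (by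
          obtain ⟨c, w⟩ := Set.nonempty_of_ncard_ne_zero (e.trans_ne n.succ_ne_zero)
          exact ⟨c, w, trivial⟩)
        exact ⟨_, t0, a, c, b, A, B, v, rfl⟩
      obtain ⟨t0, a, c, b, A, B, v, w⟩ := Nat.find_spec ex
      obtain ⟨u1, u2⟩ := hN.up_c v
      have w0 := (X.wd v.st).2
      have w1 := X.wd' v.st
      have i0 : cells (N t0) ⊆ cells (N (g • o)) := fun x r => i (u2 ▸ .inr r)
      have r1 := ih t0 (by rw [u2, Set.ncard_insert_of_notMem u1 (hN.inv t0).fin] at e; omega) i0 a.length ((src c.r c.d).length + b.length)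
        (by simp [ln, w0]) fun t1 a1 c1 b1 A1 B1 v1 => by
          by_contra! r
          have l1 := v.l1
          have l2 := v1.l1
          have l3 : c1.os.length = _ := outs_len ..
          have l4 : 0 < (src c1.r (!c1.d)).length := List.length_pos_iff.2 v1.n2
          obtain ⟨m, rfl, -⟩ := split_len (v1.e2.symm.trans (v.e1.trans (List.append_assoc ..))) (by simp; omega)
          obtain ⟨t2, a2, b2, A2, B2, v2, l5⟩ := hN.av (t := t) (c := c1) (A := A1) (B := m ++ c.os ++ B) (by simp [v.e2]) v1.n3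
          exact Nat.find_min ex (show a2.length < _ by omega) ⟨t2, a2, c1, b2, A2, B2, v2, rfl⟩
      obtain ⟨t0', t', a', b', A', B', v', w'⟩ := cv c (i (u2 ▸ .inl rfl))
      obtain ⟨y1, y2⟩ := hN.up_ty v v'
      obtain ⟨m0, q0⟩ := hN.md_ex w0
      obtain ⟨m1, q1⟩ := hN.md_ex w1
      have r2 := h2 _ w' C c2 m0 (sg t0 a.length) (sg t a.length)
      simp only [← y1, ← y2] at r2
      obtain ⟨_, _, _, -, -, -, -, -, z, -⟩ := id q0
      have r2 := (r2 z (hN.md_r q0 (by simpa [w0] using hs t0 a.length)) (.cons (hN.md_s v.st q0 q1) (hN.md_r q1 (by simpa [w1] using hs t a.length)))).2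
      obtain ⟨m1, m2⟩ := h3 _ w' M le_rfl
      have j := j _ _ _ _ _ _ v
      simp only [ln, w1, List.length_append] at l m1 m2
      rcases le_total p a.length with z | z
      · obtain ⟨d, z⟩ := Nat.exists_eq_add_of_le z
        have r3 := (mk t i p d (by simp [ln, w1]; omega)).2
        rw [← z] at r3
        have : d + (src c.r c.d).length + b.length ≤ q + M := by omega
        nlinarith [Nat.mul_le_mul_left C this]
      · obtain ⟨d, rfl⟩ := Nat.exists_eq_add_of_le z
        have r3 := (mk t i a.length d (by simp [ln, w1]; omega)).1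
        have : d + (src c.r c.d).length + b.length ≤ q + 3 * M := by omega
        nlinarith [Nat.mul_le_mul_left C this]
  have r1 := main _ (g • o) rfl le_rfl 0 (X.ln o) (by simp [ln_act]) fun t0 a c b A B v => by
    have : 0 < (src c.r (!c.d)).length := List.length_pos_iff.2 v.n2
    omega
  have r2 := (h4 C3 le_rfl (g • o) (g • o) (sg (g • o) 0) (X.wact g o) (.nil _) (by
    have := hN.md_r (t := g • o) (u := []) (v := X.word o) (y := []) (m := g • o) (s := sg (g • o) 0)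
      ⟨[], N (g • o), [], by simp [X.wact], by simp, rfl, by rw [hN.len, X.wact], by simp [Lf, X.nf_nil], by simp [X.nf_nil, X.wact],
        by simp [Lf, Rf]⟩ (by simpa [X.wact] using hs (g • o) 0)
    simpa [X.nf_nil] using this)).1
  have r3 := hℓ (g * φ o) (φ o)⁻¹
  rw [hφ] at r2
  rw [mul_inv_cancel_right] at r3
  rw [hN.di_base]
  nlinarith [Nat.zero_le ((ℓ (φ o)⁻¹ + C3 + ℓ (φ (sg o (X.ln o))) + C * X.ln o) * (cells (N (g • o))).ncard), Nat.zero_le (C * (1 + 3 * M))]

end Sys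

end Pool.Agent.H.MP_8a4945_al
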